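import Mathlib

set_option autoImplicit false

open Metric Complex Filter Topology

namespace Pool.Agent.Results.MP_9404a8_an.OneTwoBeatsKoebe

/-- The class `S`: `f` is holomorphic and injective on the unit disc, `f(0)=0`, `f'(0)=1`. -/
def ClassS (f : ℂ → ℂ) : Prop :=
  DifferentiableOn ℂ f (ball 0 1) ∧ Set.InjOn f (ball 0 1) ∧ f 0 = 0 ∧ deriv f 0 = 1

/-- `z / f(z)`, read as `1` at `z = 0`. -/
noncomputable def rq (f : ℂ → ℂ) (z : ℂ) : ℂ := if z = 0 then 1 else z / f z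

/-- The bracket: `(f(z)-f(w))/(z-w) * z/f(z) * w/f(w)` for `z ≠ w`, and `f'(z) (z/f(z))^2` for
`z = w`. -/
noncomputable def bracket (f : ℂ → ℂ) (z w : ℂ) : ℂ :=
  if z = w then deriv f z * rq f z ^ 2 else (f z - f w) / (z - w) * rq f z * rq f w

/-- `F` is the holomorphic branch on the bidisc of the logarithm of the bracket with
`F(0,0)=0`. -/
def IsKernel (f : ℂ → ℂ) (F : ℂ → ℂ → ℂ) : Prop :=
  DifferentiableOn ℂ (fun p : ℂ × ℂ => F p.1 p.2) (ball 0 1 ×ˢ ball 0 1) ∧ F 0 0 = 0 ∧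
    ∀ z ∈ ball (0 : ℂ) 1, ∀ w ∈ ball (0 : ℂ) 1, exp (F z w) = bracket f z w

/-- `G^{[p,q]}(z,w) = ∂^{p+q} F / ∂z^p ∂w^q (z,w)`. -/
noncomputable def G (F : ℂ → ℂ → ℂ) (p q : ℕ) (z w : ℂ) : ℂ :=
  iteratedDeriv p (fun ζ => iteratedDeriv q (fun η => F ζ η) w) z

/-- `S^{[p,q]}(z) = G^{[p,q]}(z,z)`. -/
noncomputable def S (F : ℂ → ℂ → ℂ) (p q : ℕ) (z : ℂ) : ℂ := G F p q z z

/-! ### the function -/

noncomputable def δ : ℂ := (84 - 13 * I) / 85

/-- `f(z) = z (1 - 84 z / 85) / (1 - δ z)^2`, `δ = (84 - 13 i)/85`. -/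
noncomputable def f (z : ℂ) : ℂ := z * (1 - 84 / 85 * z) / (1 - δ * z) ^ 2

noncomputable def N (z w : ℂ) : ℂ := 1 - 84 / 85 * (z + w) + z * w

noncomputable def φ (z : ℂ) : ℂ := (84 / 85 - z) / (1 - 84 / 85 * z)

lemma δ_eq : δ ^ 2 - 2 * (84 / 85) * δ + 1 = 0 := by
  unfold δ
  have := I_sq
  linear_combination (169 / 7225) * this

lemma norm_δ : ‖δ‖ = 1 := by
  have h : ‖δ‖ ^ 2 = 1 := by
    rw [← normSq_eq_norm_sq, normSq_apply]
    have e1 : δ.re = 84 / 85 := by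
      unfold δ
      have : ((84 - 13 * I) / 85 : ℂ) = ((84 / 85 : ℝ) : ℂ) + ((-(13 / 85) : ℝ) : ℂ) * I := by
        push_cast; ring
      rw [this]
      simp
    have e2 : δ.im = -(13 / 85) := by
      unfold δ
      have : ((84 - 13 * I) / 85 : ℂ) = ((84 / 85 : ℝ) : ℂ) + ((-(13 / 85) : ℝ) : ℂ) * I := by
        push_cast; ring
      rw [this]
      simp
    rw [e1, e2]
    norm_num
  nlinarith [norm_nonneg δ]

lemma ne_δ {z : ℂ} (hz : ‖z‖ < 1) : 1 - δ * z ≠ 0 := by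
  intro h
  have h1 : δ * z = 1 := by linear_combination -h
  have h2 := congrArg norm h1
  rw [norm_mul, norm_δ, one_mul, norm_one] at h2
  linarith

lemma ne_τ {z : ℂ} (hz : ‖z‖ < 1) : 1 - 84 / 85 * z ≠ 0 := by
  intro h
  have h1 : 84 / 85 * z = 1 := by linear_combination -h
  have h2 := congrArg norm h1
  rw [norm_mul, norm_one] at h2
  have : ‖(84 / 85 : ℂ)‖ = 84 / 85 := by rw [norm_div]; simp
  rw [this] at h2
  linarith

lemma norm_φ {z : ℂ} (hz : ‖z‖ < 1) : ‖φ z‖ < 1 := by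
  unfold φ
  rw [norm_div, div_lt_one (norm_pos_iff.mpr (ne_τ hz))]
  have e : ‖84 / 85 - z‖ ^ 2 < ‖1 - 84 / 85 * z‖ ^ 2 := by
    rw [← normSq_eq_norm_sq, ← normSq_eq_norm_sq, normSq_apply, normSq_apply]
    have hz2 : z.re ^ 2 + z.im ^ 2 < 1 := by
      have : z.re ^ 2 + z.im ^ 2 = ‖z‖ ^ 2 := by
        rw [← normSq_eq_norm_sq, normSq_apply]; ring
      rw [this]
      nlinarith [norm_nonneg z]
    have e1 : (84 / 85 : ℂ) = ((84 / 85 : ℝ) : ℂ) := by push_cast; ring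
    rw [e1]
    simp only [sub_re, sub_im, ofReal_re, ofReal_im, re_ofReal_mul, im_ofReal_mul, one_re, one_im]
    nlinarith
  exact lt_of_pow_lt_pow_left₀ 2 (norm_nonneg _) e

lemma ne_φ {z w : ℂ} (hz : ‖z‖ < 1) (hw : ‖w‖ < 1) : 1 - w * φ z ∈ slitPlane := by
  left
  have h1 : ‖w * φ z‖ < 1 := by
    rw [norm_mul]
    have := norm_φ hz
    nlinarith [norm_nonneg w, norm_nonneg (φ z)]
  have h2 := (re_le_norm (w * φ z)).trans_lt h1
  rw [sub_re, one_re]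
  linarith

lemma slit_τ {w : ℂ} (hw : ‖w‖ < 1) : 1 - 84 / 85 * w ∈ slitPlane := by
  left
  have h1 : ‖84 / 85 * w‖ < 1 := by
    rw [norm_mul]
    have : ‖(84 / 85 : ℂ)‖ = 84 / 85 := by rw [norm_div]; simp
    rw [this]
    linarith
  have h2 := (re_le_norm (84 / 85 * w)).trans_lt h1
  rw [sub_re, one_re]
  linarith

lemma N_eq {z : ℂ} (w : ℂ) (hz : ‖z‖ < 1) : N z w = (1 - 84 / 85 * z) * (1 - w * φ z) := by
  unfold N φ
  have h := mul_div_cancel₀ (84 / 85 - z) (ne_τ hz)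
  linear_combination w * h

lemma N_ne {z w : ℂ} (hz : ‖z‖ < 1) (hw : ‖w‖ < 1) : N z w ≠ 0 := by
  rw [N_eq w hz]
  exact mul_ne_zero (ne_τ hz) (slitPlane_ne_zero (ne_φ hz hw))

lemma f_sub {z w : ℂ} (hz : ‖z‖ < 1) (hw : ‖w‖ < 1) :
    f z - f w = (z - w) * N z w / ((1 - δ * z) ^ 2 * (1 - δ * w) ^ 2) := by
  unfold f N
  have h1 := ne_δ hz
  have h2 := ne_δ hw
  rw [div_sub_div _ _ (pow_ne_zero 2 h1) (pow_ne_zero 2 h2)]
  congr 1
  linear_combination (z * w * (w - z)) * δ_eq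

lemma hasDerivAt_f {z : ℂ} (hz : ‖z‖ < 1) : HasDerivAt f (N z z / (1 - δ * z) ^ 4) z := by
  have h1 := ne_δ hz
  have a1 : HasDerivAt (fun w : ℂ => w * (1 - 84 / 85 * w)) (1 - 2 * (84 / 85) * z) z := by
    have b1 : HasDerivAt (fun w : ℂ => 1 - 84 / 85 * w) (-(84 / 85)) z := by
      simpa using ((hasDerivAt_id z).const_mul (84 / 85 : ℂ)).const_sub 1
    have b2 := (hasDerivAt_id z).mul b1
    have e : 1 - 2 * (84 / 85) * z = 1 * (1 - 84 / 85 * z) + id z * (-(84 / 85)) := by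
      simp only [id]
      ring
    rw [e]
    exact b2
  have a2 : HasDerivAt (fun w : ℂ => (1 - δ * w) ^ 2) (-(2 * δ * (1 - δ * z))) z := by
    have b1 : HasDerivAt (fun w : ℂ => 1 - δ * w) (-δ) z := by
      simpa using ((hasDerivAt_id z).const_mul δ).const_sub 1
    have b2 := b1.pow 2
    have e : -(2 * δ * (1 - δ * z)) = ((2 : ℕ) : ℂ) * (1 - δ * z) ^ (2 - 1) * (-δ) := by
      push_cast
      ring
    rw [e]
    exact b2
  have a3 := a1.div a2 (pow_ne_zero 2 h1)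
  have e : N z z / (1 - δ * z) ^ 4 = ((1 - 2 * (84 / 85) * z) * (1 - δ * z) ^ 2 -
      z * (1 - 84 / 85 * z) * (-(2 * δ * (1 - δ * z)))) / ((1 - δ * z) ^ 2) ^ 2 := by
    rw [div_eq_div_iff (pow_ne_zero 4 h1) (pow_ne_zero 2 (pow_ne_zero 2 h1))]
    unfold N
    linear_combination (-(z ^ 2) * (1 - δ * z) ^ 4) * δ_eq * (-1)
  rw [e]
  exact a3

lemma f_mem : ClassS f := by
  refine ⟨?_, ?_, ?_, ?_⟩
  · intro z hz
    exact (hasDerivAt_f (by simpa using hz)).differentiableAt.differentiableWithinAt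
  · intro z hz w hw h
    rw [mem_ball_zero_iff] at hz hw
    have h1 := f_sub hz hw
    rw [h, sub_self] at h1
    have h2 := N_ne hz hw
    have h3 := pow_ne_zero 2 (ne_δ hz)
    have h4 := pow_ne_zero 2 (ne_δ hw)
    have h5 : (z - w) * N z w = 0 := by
      have := div_eq_zero_iff.mp h1.symm
      rcases this with h | h
      · exact h
      · exact absurd h (mul_ne_zero h3 h4)
    rcases mul_eq_zero.mp h5 with h | h
    · exact sub_eq_zero.mp h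
    · exact absurd h h2
  · simp [f]
  · rw [(hasDerivAt_f (z := 0) (by simp)).deriv]
    simp [N]

lemma rq_f {z : ℂ} (hz : ‖z‖ < 1) : rq f z = (1 - δ * z) ^ 2 / (1 - 84 / 85 * z) := by
  unfold rq
  split_ifs with h
  · simp [h]
  · unfold f
    have h1 := ne_δ hz
    have h2 := ne_τ hz
    rw [div_div_eq_mul_div, div_eq_div_iff (mul_ne_zero h h2) h2]
    ring

lemma bracket_f {z w : ℂ} (hz : ‖z‖ < 1) (hw : ‖w‖ < 1) :
    bracket f z w = N z w / ((1 - 84 / 85 * z) * (1 - 84 / 85 * w)) := by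
  have h1 := ne_δ hz
  have h2 := ne_τ hz
  have h3 := ne_δ hw
  have h4 := ne_τ hw
  unfold bracket
  split_ifs with h
  · subst h
    rw [(hasDerivAt_f hz).deriv, rq_f hz, div_pow, ← pow_mul, div_mul_div_comm]
    rw [div_eq_div_iff (mul_ne_zero (pow_ne_zero _ h1) (pow_ne_zero _ h2)) (mul_ne_zero h2 h2)]
    ring
  · rw [f_sub hz hw, rq_f hz, rq_f hw]
    have h5 : z - w ≠ 0 := sub_ne_zero.mpr h
    rw [div_div, div_mul_div_comm, div_mul_div_comm]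
    rw [div_eq_div_iff (mul_ne_zero (mul_ne_zero (mul_ne_zero
      (mul_ne_zero (pow_ne_zero _ h1) (pow_ne_zero _ h3)) h5) h2) h4) (mul_ne_zero h2 h4)]
    ring

/-- the explicit kernel -/
noncomputable def F₀ (z w : ℂ) : ℂ := log (1 - w * φ z) - log (1 - 84 / 85 * w)

lemma F₀_kernel : IsKernel f F₀ := by
  refine ⟨?_, by simp [F₀], ?_⟩
  · rintro ⟨z, w⟩ ⟨hz, hw⟩
    simp only [mem_ball_zero_iff] at hz hw
    have d1 : DifferentiableAt ℂ (fun p : ℂ × ℂ => p.1) (z, w) := differentiableAt_fst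
    have d2 : DifferentiableAt ℂ (fun p : ℂ × ℂ => p.2) (z, w) := differentiableAt_snd
    have dφ : DifferentiableAt ℂ (fun p : ℂ × ℂ => φ p.1) (z, w) := by
      have dn : DifferentiableAt ℂ (fun p : ℂ × ℂ => 84 / 85 - p.1) (z, w) := d1.const_sub _
      have dd : DifferentiableAt ℂ (fun p : ℂ × ℂ => 1 - 84 / 85 * p.1) (z, w) :=
        (d1.const_mul _).const_sub _
      have e : (fun p : ℂ × ℂ => φ p.1) =
          fun p : ℂ × ℂ => (84 / 85 - p.1) * (1 - 84 / 85 * p.1)⁻¹ := by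
        funext p
        unfold φ
        rw [div_eq_mul_inv]
      rw [e]
      exact dn.mul (dd.inv (ne_τ hz))
    have e1 : DifferentiableAt ℂ (fun p : ℂ × ℂ => log (1 - p.2 * φ p.1)) (z, w) :=
      ((d2.mul dφ).const_sub 1).clog (ne_φ hz hw)
    have e2 : DifferentiableAt ℂ (fun p : ℂ × ℂ => log (1 - 84 / 85 * p.2)) (z, w) :=
      ((d2.const_mul _).const_sub 1).clog (slit_τ hw)
    exact (e1.sub e2).differentiableWithinAt
  · intro z hz w hw
    rw [mem_ball_zero_iff] at hz hw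
    rw [bracket_f hz hw, N_eq w hz]
    unfold F₀
    rw [exp_sub, exp_log (slitPlane_ne_zero (ne_φ hz hw)), exp_log (ne_τ hw)]
    rw [mul_div_mul_left _ _ (ne_τ hz)]

/-! ### the derivatives of any kernel -/

lemma deriv_w {F : ℂ → ℂ → ℂ} (hF : IsKernel f F) {z w : ℂ} (hz : ‖z‖ < 1) (hw : ‖w‖ < 1) :
    deriv (fun η => F z η) w = (z - 84 / 85) / N z w + 84 / 85 / (1 - 84 / 85 * w) := by
  obtain ⟨hd, -, hexp⟩ := hF
  have hopen : IsOpen (ball (0 : ℂ) 1 ×ˢ ball (0 : ℂ) 1) := isOpen_ball.prod isOpen_ball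
  have hd1 : DifferentiableAt ℂ (fun p : ℂ × ℂ => F p.1 p.2) (z, w) :=
    hd.differentiableAt (hopen.mem_nhds ⟨by simpa using hz, by simpa using hw⟩)
  have hd2 : DifferentiableAt ℂ (fun η : ℂ => F z η) w := by
    have hc : DifferentiableAt ℂ (fun η : ℂ => ((z, η) : ℂ × ℂ)) w :=
      (differentiableAt_const z).prodMk differentiableAt_id
    exact DifferentiableAt.comp (g := fun p : ℂ × ℂ => F p.1 p.2)
      (f := fun η : ℂ => ((z, η) : ℂ × ℂ)) w hd1 hc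
  have h1 := hd2.hasDerivAt.cexp
  have hw' : ∀ᶠ η in 𝓝 w, η ∈ ball (0 : ℂ) 1 := isOpen_ball.mem_nhds (by simpa using hw)
  have h2 : (fun η => exp (F z η)) =ᶠ[𝓝 w]
      fun η => N z η / ((1 - 84 / 85 * z) * (1 - 84 / 85 * η)) := by
    filter_upwards [hw'] with η hη
    rw [hexp z (by simpa using hz) η hη, bracket_f hz (by simpa using hη)]
  have hz1 := ne_τ hz
  have hw1 := ne_τ hw
  have hN := N_ne hz hw
  have b1 : HasDerivAt (fun η : ℂ => N z η) (z - 84 / 85) w := by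
    have c1 : HasDerivAt (fun η : ℂ => (1 - 84 / 85 * z) + (z - 84 / 85) * η) (z - 84 / 85) w := by
      simpa using ((hasDerivAt_id w).const_mul (z - 84 / 85)).const_add (1 - 84 / 85 * z)
    have c2 : (fun η : ℂ => N z η) = fun η : ℂ => (1 - 84 / 85 * z) + (z - 84 / 85) * η := by
      funext η
      unfold N
      ring
    rw [c2]
    exact c1
  have b2 : HasDerivAt (fun η : ℂ => (1 - 84 / 85 * z) * (1 - 84 / 85 * η))
      ((1 - 84 / 85 * z) * (-(84 / 85))) w := by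
    have c1 : HasDerivAt (fun η : ℂ => 1 - 84 / 85 * η) (-(84 / 85)) w := by
      simpa using ((hasDerivAt_id w).const_mul (84 / 85 : ℂ)).const_sub 1
    exact c1.const_mul _
  have h3 := (b1.div b2 (mul_ne_zero hz1 hw1)).congr_of_eventuallyEq h2
  have h4 := h1.unique h3
  rw [hexp z (by simpa using hz) w (by simpa using hw), bracket_f hz hw] at h4
  have h5 : N z w / ((1 - 84 / 85 * z) * (1 - 84 / 85 * w)) ≠ 0 :=
    div_ne_zero hN (mul_ne_zero hz1 hw1)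
  apply mul_left_cancel₀ h5
  rw [h4]
  rw [mul_add, div_mul_div_comm, div_mul_div_comm]
  rw [div_add_div _ _ (mul_ne_zero (mul_ne_zero hz1 hw1) hN) (mul_ne_zero (mul_ne_zero hz1 hw1) hw1)]
  rw [div_eq_div_iff (pow_ne_zero 2 (mul_ne_zero hz1 hw1)) (mul_ne_zero
    (mul_ne_zero (mul_ne_zero hz1 hw1) hN) (mul_ne_zero (mul_ne_zero hz1 hw1) hw1))]
  ring

lemma deriv2_w {F : ℂ → ℂ → ℂ} (hF : IsKernel f F) {z w : ℂ} (hz : ‖z‖ < 1) (hw : ‖w‖ < 1) :
    iteratedDeriv 2 (fun η => F z η) w =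
      -((z - 84 / 85) ^ 2 / N z w ^ 2) + (84 / 85) ^ 2 / (1 - 84 / 85 * w) ^ 2 := by
  rw [iteratedDeriv_succ, iteratedDeriv_one]
  have hw' : ∀ᶠ η in 𝓝 w, η ∈ ball (0 : ℂ) 1 := isOpen_ball.mem_nhds (by simpa using hw)
  have h1 : deriv (fun η => F z η) =ᶠ[𝓝 w]
      fun η => (z - 84 / 85) * (N z η)⁻¹ + 84 / 85 * (1 - 84 / 85 * η)⁻¹ := by
    filter_upwards [hw'] with η hη
    rw [deriv_w hF hz (by simpa using hη)]
    rw [div_eq_mul_inv, div_eq_mul_inv (84 / 85) (1 - 84 / 85 * η)]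
  rw [h1.deriv_eq]
  have b1 : HasDerivAt (fun η : ℂ => N z η) (z - 84 / 85) w := by
    have c1 : HasDerivAt (fun η : ℂ => (1 - 84 / 85 * z) + (z - 84 / 85) * η) (z - 84 / 85) w := by
      simpa using ((hasDerivAt_id w).const_mul (z - 84 / 85)).const_add (1 - 84 / 85 * z)
    have c2 : (fun η : ℂ => N z η) = fun η : ℂ => (1 - 84 / 85 * z) + (z - 84 / 85) * η := by
      funext η
      unfold N
      ring
    rw [c2]
    exact c1
  have c1 : HasDerivAt (fun η : ℂ => 1 - 84 / 85 * η) (-(84 / 85)) w := by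
    simpa using ((hasDerivAt_id w).const_mul (84 / 85 : ℂ)).const_sub 1
  have h2 := (((b1.inv (N_ne hz hw)).const_mul (z - 84 / 85)).add
    ((c1.inv (ne_τ hw)).const_mul (84 / 85)))
  refine h2.deriv.trans ?_
  ring

lemma S_value {F : ℂ → ℂ → ℂ} (hF : IsKernel f F) : S F 1 2 (4 / 5) = 5408 / 125 := by
  unfold S G
  rw [iteratedDeriv_one]
  have n45 : ‖(4 / 5 : ℂ)‖ < 1 := by rw [norm_div]; norm_num
  have hz' : ∀ᶠ ζ in 𝓝 (4 / 5 : ℂ), ζ ∈ ball (0 : ℂ) 1 :=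
    isOpen_ball.mem_nhds (by simpa using n45)
  have h1 : (fun ζ => iteratedDeriv 2 (fun η => F ζ η) (4 / 5)) =ᶠ[𝓝 (4 / 5 : ℂ)]
      fun ζ => -((ζ - 84 / 85) / N ζ (4 / 5)) ^ 2 +
        (84 / 85) ^ 2 / (1 - 84 / 85 * (4 / 5)) ^ 2 := by
    filter_upwards [hz'] with ζ hζ
    rw [deriv2_w hF (by simpa using hζ) n45, div_pow (ζ - 84 / 85)]
  rw [h1.deriv_eq]
  have b1 : HasDerivAt (fun ζ : ℂ => N ζ (4 / 5)) (4 / 5 - 84 / 85) (4 / 5) := by
    have c1 : HasDerivAt (fun ζ : ℂ => (1 - 84 / 85 * (4 / 5)) + (4 / 5 - 84 / 85) * ζ)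
        (4 / 5 - 84 / 85) (4 / 5 : ℂ) := by
      simpa using ((hasDerivAt_id (4 / 5 : ℂ)).const_mul (4 / 5 - 84 / 85 : ℂ)).const_add
        (1 - 84 / 85 * (4 / 5))
    have c2 : (fun ζ : ℂ => N ζ (4 / 5)) =
        fun ζ : ℂ => (1 - 84 / 85 * (4 / 5)) + (4 / 5 - 84 / 85) * ζ := by
      funext ζ
      unfold N
      ring
    rw [c2]
    exact c1
  have b2 : HasDerivAt (fun ζ : ℂ => ζ - 84 / 85) 1 (4 / 5 : ℂ) :=
    (hasDerivAt_id (4 / 5 : ℂ)).sub_const _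
  have h2 := (((b2.div b1 (N_ne n45 n45)).pow 2).neg.add_const
    ((84 / 85 : ℂ) ^ 2 / (1 - 84 / 85 * (4 / 5)) ^ 2))
  refine h2.deriv.trans ?_
  unfold N
  norm_num

/-- There are positive integers `p ≠ q` and `f ∈ S` (with its logarithmic kernel `F`) such that
`|S^{[p,q]}(z)| (1-|z|²)^{p+q} > (p+q-1)!` at some point of the disc. -/
theorem result : ∃ p q : ℕ, 0 < p ∧ 0 < q ∧ p ≠ q ∧ ∃ f : ℂ → ℂ, ClassS f ∧
    (∃ F, IsKernel f F) ∧ ∀ F, IsKernel f F →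
      ∃ z ∈ ball (0 : ℂ) 1, ((p + q - 1).factorial : ℝ) < ‖S F p q z‖ * (1 - ‖z‖ ^ 2) ^ (p + q) := by
  refine ⟨1, 2, by norm_num, by norm_num, by norm_num, f, f_mem, ⟨F₀, F₀_kernel⟩, ?_⟩
  intro F hF
  have n45 : ‖(4 / 5 : ℂ)‖ = 4 / 5 := by rw [norm_div]; norm_num
  refine ⟨4 / 5, by rw [mem_ball_zero_iff, n45]; norm_num, ?_⟩
  rw [S_value hF, n45]
  have : ‖(5408 / 125 : ℂ)‖ = 5408 / 125 := by rw [norm_div]; norm_num
  rw [this]
  norm_num [Nat.factorial]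

end Pool.Agent.Results.MP_9404a8_an.OneTwoBeatsKoebe
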